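import Pool.Agent.N102.CF.Main
import Pool.Agent.N102.SP.Rec

/-!
# The `C^r` closing lemma for circle factors and clocks

Author: helper102 (merged from two hand-ins by helper813).

`V n = ℝⁿ`, `DiffM n N r = Diff^r(N)`, `strongTop n N r` is its strong (Whitney) `C^r` topology (the
usual one, `N` being compact), `IsPer G z`: `z` is periodic (`Pool/Agent/H718R2/G0.lean`). From
`Pool/Agent/N102/CF/Defs.lean`:

* `IsLift G`: `G` is a lift of an orientation preserving `C²` diffeomorphism of the circle; `rho G`
  is its rotation number;
* `NotLocked G`: the rotation number of `G (· + s)` is not constant for `s` near `0`. By the second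
  part of the theorem this is the case if `rho G` is irrational (Diophantine or Liouville, conjugate
  to a rotation or not so); it is also the case for all rational rotation numbers, unless some lift
  `G^q - p` takes values above and below the identity;
* `Clock n N F O K A a G e`: on the compact set `K` the map `F^e` is a product `f × g`, with `f`
  arbitrary and `g` the circle diffeomorphism with lift `G`. More precisely `K` is invariant under a
  smooth circle action `A` defined on an open set `O ⊇ K`, `a : O → S¹` is smooth and equivariant (so
  `O ≅ M × S¹`, `K ≅ L × S¹`), `F^e` maps `K` to `K` and circles in `K` to circles, `F^i(K)`,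
  `0 < i < e`, does not meet `K`, and `a ∘ F^e = g ∘ a` on `K`;
* `CircRec F K A e y`: the circle of `y` is nonwandering in `K` for the powers of `F^e`; this is the
  case if `y` is recurrent (`clockPt_of_rec`);
* `IsClockPt n N F y`: `y` lies in such a set `K`, with `NotLocked G` and `CircRec F K A e y`.

From `Pool/Agent/N102/SP/Defs.lean`:

* `SClock n N F O K ψ a G e`: on the compact set `K`, which is periodic under `F` of period `e`,
  `F^e` moves points along the orbits of a suspension flow for a time which depends on the clock only.
  More precisely `K` is invariant under a smooth flow `ψ` (defined on an open set `O ⊇ K`, for example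
  `O = N`), `a : O → ℂ` is smooth with `|a| = 1` and `a (ψ_t y) = exp(2πit) a(y)` on `K`, and
  `F^e y = ψ_(G(x) - x) y` for `y ∈ K`, `a y = exp(2πix)`. The return map `ψ_1` of `K ∩ a⁻¹(1)` is
  arbitrary, and `F` is arbitrary elsewhere;
* `FlowRec K ψ y`: `y` is nonwandering in `K` for the powers of `ψ_1`; this is the case if `y` is
  recurrent for `F` and not periodic (`Pool.Agent.N102.SP.Rec.per_or_flowRec`);
* `IsSClockPt n N F y`: `y` lies in such a set `K`, with `NotLocked G` and `FlowRec K ψ y`.

Examples: all recurrent points of `F = f × g` on `N = M × S¹`, `f` an arbitrary diffeomorphism of `M` and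
`g` a circle diffeomorphism with `NotLocked`, are of the first kind; all recurrent points of
`F y = ψ_(G(x) - x) y`, `ψ` the suspension flow of an arbitrary diffeomorphism, `NotLocked G`, are
periodic or of the second kind.
-/

set_option autoImplicit false

open scoped Manifold ContDiff Topology

namespace Pool.Agent.Results.MP_1e8d1a_an.CircleClocks

open Pool.Agent.H718R2.G Pool.Agent.TH290.CL Pool.Agent.N102.CF Pool.Agent.N102.SP

/-- Let `N` be a closed manifold, `1 ≤ r ≤ ∞`, `F ∈ Diff^r(N)` and `z ∈ N`. Suppose that arbitrarily
`C^r`-close to `F` there are diffeomorphisms `F'` (for example `F' = F`) for which `z` is a limit of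
points `y` of one of the following two kinds: `y` lies, with a nonwandering circle, in a compact set on
which (an iterate of) `F'` is the product of an arbitrary map and a circle diffeomorphism whose
rotation number is not locked; or `y` lies in a compact set on which (an iterate of) `F'` is a
clock-dependent time map of a suspension flow, for a circle diffeomorphism whose rotation number is
not locked, and is nonwandering for this flow. Then the conclusion of the `C^r` closing lemma holds for
`F` at `z`. All circle diffeomorphisms with irrational rotation numbers are not locked. -/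
theorem result {n : ℕ} {N : Type*} [TopologicalSpace N] [T2Space N] [CompactSpace N]
    [ChartedSpace (V n) N] [IsManifold (𝓡 n) ∞ N] (r : ℕ∞) (hr : 1 ≤ r) :
    (∀ (F : DiffM n N r) (z : N), (∀ U : Set (DiffM n N r), IsOpen[strongTop n N r] U → F ∈ U →
      ∃ F' ∈ U, z ∈ closure {y | IsClockPt n N F' y ∨ IsSClockPt n N F' y}) →
    ∀ U : Set (DiffM n N r), IsOpen[strongTop n N r] U → F ∈ U → ∃ G ∈ U, IsPer G z) ∧
    ∀ G : ℝ → ℝ, IsLift G → Irrational (rho G) → NotLocked G := by
  refine ⟨fun F z h U hU hFU => ?_, fun G hG h => T3.t_T3 G hG h⟩
  obtain ⟨F', hF', hz⟩ := h U hU hFU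
  have h1 : {y | IsClockPt n N F' y ∨ IsSClockPt n N F' y} =
      {y | IsClockPt n N F' y} ∪ {y | IsSClockPt n N F' y} := rfl
  rw [h1, closure_union] at hz
  rcases hz with hz | hz
  · exact closable_of_clock r hr F' z (fun U' _ hU' => ⟨F', hU', hz⟩) U hU hF'
  · exact Lim.main r hr F' z (fun U' _ hU' => ⟨F', hU', hz⟩) U hU hF'

end Pool.Agent.Results.MP_1e8d1a_an.CircleClocks
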