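import Pool.Agent.N813.EM.MainF

/-!
# The `C^r` closing lemma on the supports of exponentially mixing measures

`V n = ℝⁿ`, `DiffM n N r = Diff^r(N)` with the strong (Whitney) `C^r` topology `strongTop n N r` (the
usual one, `N` being compact), `IsPer G z`: `z` is periodic for `G` (`Pool/Agent/H718R2/G0.lean`),
`Per f`: the set of the periodic points of `f` (`Pool/Agent/TH80/OMS/SymDefs.lean`).
`Approx n N r F Q`: every neighbourhood of `F` in `Diff^r(N)` contains some `G` with the property `Q`
(`Pool/Agent/N813/CL/DefsF.lean`). `BaireSet n N r S`: `S` contains a countable intersection of open dense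
subsets of `Diff^r(N)` (`Pool/Agent/Y504/CO/KSG.lean`).

From `Pool/Agent/N813/EM/Defs.lean`, for a map `g` of a metric space `B` and a Borel measure `μ` on `B`:
* `Frost μ`: `μ(B(b, s)) ≤ C s^δ` for all balls, for some `δ > 0`;
* `ExpMix g μ`: mixing of order three at a stretched exponential rate, that is
  `|∫ u · v∘g^i · w∘g^(i+j) dμ - ∫u dμ ∫v dμ ∫w dμ| ≤ C L^q exp(-κ min(i, j)^β)` (`M3`), `0 < β ≤ 1`, for
  all Lipschitz functions `u, v, w : B → [0, 1]` with Lipschitz constant `L ≥ 1` (`Obs`). The usual
  exponential mixing of order three is the case `β = 1`;
* `FinDim B`: finite box dimension; `BiLip g`: `g` is bi-Lipschitz.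

From `Pool/Agent/N813/EM/DefsF.lean`:
* `MixMeas g μ b`: `μ` is a `g`-invariant Borel probability measure with `Frost μ` and `ExpMix g μ`, the
  support of which contains `b`. Nothing else is assumed: no hyperbolicity (the Lyapunov exponents may
  vanish), no smoothness of `μ`, no assumption on the dynamics outside of the support of `μ`;
* `MixPt n N F z`: either (a) the distance of `N` is compatible with the smooth structure (`ChartLip`,
  for instance a Riemannian distance; `Pool/Agent/Y368/CL/Met.lean`) and `MixMeas F μ z` for a measure `μ`
  on `N`, or (b) `MixHyp k n N F z` for some `k`: `z` lies in a closed invariant set `K` on which `F` is an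
  extension, by the action of a compact connected group (`ExpAct`, `Inv`, `Quot` in
  `Pool/Agent/N813/CL/DefsF.lean`: the group is given by the maps `R_X = exp(X)`, `X ∈ ℝ^k`), of a
  bi-Lipschitz homeomorphism `g` of `B = π(K)`, `FinDim B`, with `MixMeas g μ (π z)`, where `π` and its
  inverse modulo the group are Hölder continuous near `z` (`HolUp`, `HolLow`). In (b) no mixing, not even
  ergodicity, of `F` is assumed.

* `MixLim n N r F z`: arbitrarily `C^r`-close to `F` there are `F'` with `MixPt n N F' z`.

Examples of maps with `MixMeas F μ z` for a volume `μ` and all `z`: ergodic automorphisms of tori and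
nilmanifolds (also the nonhyperbolic ones), time-`t` maps of contact Anosov flows, translations by
partially hyperbolic elements on `G/Γ`, `Γ` a cocompact irreducible lattice of a semisimple group `G`.
Then by (b) all compact connected group extensions of these can be closed at all points.

The proof: mixing of order two and the Frostman condition show that most points have no early
returns, mixing of order three that most pairs (a cell of size `ρ^A`, its return after a time
`C log(1/ρ)`) have no intermediate return to the cell of size `ρ`. This gives points near `z` whose
orbits return to distance `ρ^A` before they return to distance `ρ`, for every `A`.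

Lean: helpers 813 (host), 87, 55, 273, 8, 545, 738, 707, 756.
-/

set_option autoImplicit false

open scoped Manifold ContDiff Topology
open MeasureTheory

universe u v

namespace Pool.Agent.Results.MP_1e8d1a_an.ExponentialMixing

open Pool.Agent.H718R2.G Pool.Agent.N813.CL.F Pool.Agent.N813.EM Pool.Agent.TH80.OMS
  Pool.Agent.Y504.CO.KSG

/-- Let `N` be a closed manifold and `1 ≤ r ≤ ∞`. (Q1) Let `F ∈ Diff^r(N)` and `z ∈ N`, and suppose
that arbitrarily `C^r`-close to `F` there are diffeomorphisms `F'` (for example `F' = F`) for which `z`
lies in the support of an invariant measure which is exponentially mixing of order three, or for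
which the same holds in the quotient by the action of a compact connected group commuting with `F'`
(`MixPt`). Then the conclusion of the `C^r` closing lemma holds for `F` at `z`. (Q2) For all `f` in a
Baire set of `Diff^r(N)`, every such point `z` is a limit of periodic points of `f`. -/
theorem result {n : ℕ} {N : Type u} [MetricSpace N] [CompactSpace N] [MeasurableSpace N]
    [BorelSpace N] [ChartedSpace (V n) N] [IsManifold (𝓡 n) ∞ N] (r : ℕ∞) (hr : 1 ≤ r) :
    (∀ (F : DiffM n N r) (z : N), MixLim.{u, v} n N r F z → Approx n N r F fun G => IsPer G z) ∧
    BaireSet n N r {f | ∀ z, MixLim.{u, v} n N r f z → z ∈ closure (Per f)} :=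
  ⟨main1 r hr, main2 r hr⟩

end Pool.Agent.Results.MP_1e8d1a_an.ExponentialMixing
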