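import Pool.Agent.N813.FL.MainF

/-!
# The `C^r` closing lemma for group extensions of skew products with hyperbolic fibres

`V n = ℝⁿ`, `DiffM n N r = Diff^r(N)` with the strong (Whitney) `C^r` topology `strongTop n N r` (the
usual one, `N` being compact), `IsPer G z`: `z` is periodic for `G` (`Pool/Agent/H718R2/G0.lean`).
`Approx n N r F Q`: every neighbourhood of `F` in `Diff^r(N)` contains some `G` with the property `Q`.

`HypFib n N F z` (`Pool/Agent/N813/FL/DefsF.lean`): `FlowHyp k n N F z` or `MapHyp k n N F z` for some `k`.

`FlowHyp k n N F z`: `z` lies in a closed set `K ⊆ N` and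
* (`ExpAct`, `Inv`, `Quot`, all in `Pool/Agent/N813/CL/DefsF.lean`) `F(K) ⊆ K`, `F` commutes on `K` with the
  action of a compact connected group, and `π : K → X × Y` is the quotient by the group, where `X` and
  `Y` are compact metric spaces. The group is given by the maps `R_a = exp(a)`, `a ∈ ℝ^k`, which are
  defined and smooth on all of `N` (`k = 0`: the group is trivial, `π : K → X × Y` is a homeomorphism);
* (`Skew`) `F` induces on `X × Y` the map `(x, y) ↦ (f x, φ_{τ(x)} y)`, where `f` is an ARBITRARY
  homeomorphism of `X` and `τ ≥ 0` is continuous;
* (`HypFlow`, `Pool/Agent/N813/FL/Defs.lean`) `φ` is a continuous flow on `Y` with more than one orbit,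
  which is chain transitive and has the periodic shadowing property, for example a transitive Anosov
  flow or the restriction of an Axiom A flow to a basic set;
* (`SmoothFlow`, `Covers`) `Φ` is a smooth flow on `N` which preserves `K`, commutes on `K` with `F` and
  with the group, and induces on `X × Y` the flow `(x, y) ↦ (x, φ_t y)`;
* (`NonWand`) the point of `X` below `z` is nonwandering for `f`.

`MapHyp k n N F z`: the same, with (`SkewMap`) `(x, y) ↦ (f x, h^{τ(x)} y)`, where `τ ≥ 1` has values in
`ℕ`, and (`HypMap`) `h` is a chain mixing homeomorphism of `Y` with the periodic shadowing property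
(`Pool/Agent/W564/SC/Defs.lean`), for example a transitive Anosov diffeomorphism or the restriction of an
Axiom A diffeomorphism to a mixing basic set. In this case no flow `Φ` is needed.

Examples: `F = f × φ_1` on `M × Y`, where `f` is an arbitrary diffeomorphism of the closed manifold `M` and
`φ` is a transitive Anosov flow on the closed manifold `Y`; `F (x, y) = (f x, φ_{τ(x)} y)`, `τ ≥ 0`; the same
with a compact connected group extension of `φ` (e.g. a frame flow) in the place of `φ`; skew products
`(x, y, u) ↦ (f x, h y, ψ(x, y) u)` with a transitive Anosov diffeomorphism `h` and `ψ` with values in a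
compact connected group: all points over the nonwandering set of the arbitrary diffeomorphism `f`
of `M` can be closed.
-/

set_option autoImplicit false

open scoped Manifold ContDiff Topology

universe u v

namespace Pool.Agent.Results.MP_1e8d1a_an.HyperbolicFibres

open Pool.Agent.H718R2.G Pool.Agent.N813.CL.F Pool.Agent.N813.FL.F

/-- Let `N` be a closed manifold, `1 ≤ r ≤ ∞`, `F ∈ Diff^r(N)` and `z ∈ N`. Suppose that arbitrarily
`C^r`-close to `F` there are diffeomorphisms `F'` (for example `F' = F`) which on a closed invariant set
containing `z` are compact connected group extensions of skew products `(x, y) ↦ (f x, φ_{τ(x)} y)`,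
where `φ` is a hyperbolic flow and `τ ≥ 0`, or `(x, y) ↦ (f x, h^{τ(x)} y)`, where `h` is a mixing
hyperbolic homeomorphism and `τ ≥ 1`, and `f` is an arbitrary homeomorphism, for which the point below
`z` is nonwandering. Then the conclusion of the `C^r` closing lemma holds for `F` at `z`. -/
theorem result {n : ℕ} {N : Type u} [TopologicalSpace N] [T2Space N]
    [CompactSpace N] [ChartedSpace (V n) N] [IsManifold (𝓡 n) ∞ N] (r : ℕ∞) (hr : 1 ≤ r)
    (F : DiffM n N r) (z : N) (h : Approx n N r F fun F' => HypFib.{u, v} n N F' z) :
    Approx n N r F fun G => IsPer G z :=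
  main r hr F z h

end Pool.Agent.Results.MP_1e8d1a_an.HyperbolicFibres
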