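import Pool.Agent.N813.CL.MainF

/-!
# The `C^r` closing lemma for maps which are hyperbolic on toral fibres, over an arbitrary map

`V n = ℝⁿ`, `DiffM n N r = Diff^r(N)` with the strong (Whitney) `C^r` topology `strongTop n N r` (the
usual one, `N` being compact), `IsPer G z`: `z` is periodic for `G` (`Pool/Agent/H718R2/G0.lean`).
`Approx n N r F Q`: every neighbourhood of `F` in `Diff^r(N)` contains some `G` with the property `Q`.

`TorHyp k d n N F z` (`Pool/Agent/N813/CL/DefsF.lean`): `z` lies in a closed set `K ⊆ N` and
* (`ExpAct`, `Inv`, `Quot`) `F(K) ⊆ K`, `F` commutes on `K` with the action of a compact connected group,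
  `π : K → B` is the quotient by the group, and `g` is the homeomorphism of `B` induced by `F`. The
  group is given by the maps `R_X = exp(X)`, `X ∈ ℝ^k`, which are defined and smooth on all of `N`
  (outside of `K` they need not form a group and need not commute with `F`). `k = 0`: `B = K`, `g = F`;
* (`TorusOrb`) `S` is a continuous action of `ℝ^d` on `B` whose orbits are `d`-dimensional tori (the
  stabilisers are lattices, uniformly discrete and uniformly cocompact);
* (`TorBase`, `HypCoc`) `g (S_a b) = S_{A_b a} (g b)` with linear automorphisms `A_b` of `ℝ^d`, and the cocycle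
  `A` over `g` is uniformly hyperbolic, with a continuous invariant splitting;
* (`NonWandMod`) the `S`-orbit of `π z` is nonwandering for the map of the orbit space `B / ℝ^d` induced
  by `g`. Otherwise this map is ARBITRARY. (If `z` is a recurrent point of `F` this condition holds.)

Examples: `N → M` is a principal `𝕋^d`-bundle and `F` is a bundle map which acts on the fibres by a
hyperbolic automorphism, e.g. `F (x, y) = (f x, A y + φ x)` on `M × 𝕋^d`, or extensions
`(x, y, h) ↦ (f x, A y + φ x, ψ (x, y) h)` of such maps by compact connected groups: ALL points over
the nonwandering set of the arbitrary diffeomorphism `f` of `M` can be closed.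
-/

set_option autoImplicit false

open scoped Manifold ContDiff Topology

universe u v

namespace Pool.Agent.Results.MP_1e8d1a_an.HyperbolicToralFibres

open Pool.Agent.H718R2.G Pool.Agent.N813.CL.F

/-- Let `N` be a closed manifold, `1 ≤ r ≤ ∞`, `F ∈ Diff^r(N)`, `z ∈ N` and `d ≥ 1`. Suppose that
arbitrarily `C^r`-close to `F` there are diffeomorphisms `F'` (for example `F' = F`) which on a closed
invariant set containing `z` are compact connected group extensions of maps which are hyperbolic along
`d`-dimensional toral orbits, such that the orbit of `z` is nonwandering for the induced map, otherwise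
arbitrary, of the space of the toral orbits. Then the conclusion of the `C^r` closing lemma holds for
`F` at `z`. -/
theorem result {k d n : ℕ} (hd : 1 ≤ d) {N : Type u} [TopologicalSpace N] [T2Space N]
    [CompactSpace N] [ChartedSpace (V n) N] [IsManifold (𝓡 n) ∞ N] (r : ℕ∞) (hr : 1 ≤ r)
    (F : DiffM n N r) (z : N) (h : Approx n N r F fun F' => TorHyp.{u, v} k d n N F' z) :
    Approx n N r F fun G => IsPer G z :=
  main hd r hr F z h

end Pool.Agent.Results.MP_1e8d1a_an.HyperbolicToralFibres
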